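import Pool.Agent.Lib.MP_1a39b9_al.Mg.G010
import Pool.Agent.Lib.MP_1a39b9_al.PR.F

/-!
# WR F: the relation numbers of a wreath product
-/

set_option autoImplicit false
set_option linter.unusedSectionVars false

namespace Pool.Agent.RG.WR

open Subgroup Pool.Agent.RG.PR

/-- Representatives of the classes of `(i, j, h) ~ (j, i, h⁻¹)`, `h ≠ 1`. -/
theorem exists_CS (a : ℕ) (Q : Type) [Group Q] [Finite Q] : ∃ CS : Finset (Fin a × Fin a × Q),
    (∀ x ∈ CS, x.2.2 ≠ 1) ∧ (∀ i j h, (i, j, h) ∈ CS → (j, i, h⁻¹) ∈ CS → i = j ∧ h * h = 1) ∧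
    ∀ i j h, h ≠ 1 → (i, j, h) ∈ CS ∨ (j, i, h⁻¹) ∈ CS := by
  classical
  have := Fintype.ofFinite Q
  let E := Fintype.equivFin (Fin a × Fin a × Q)
  let CS : Finset (Fin a × Fin a × Q) :=
    Finset.univ.filter fun x => x.2.2 ≠ 1 ∧ E x ≤ E (x.2.1, x.1, x.2.2⁻¹)
  have hm : ∀ i j h, (i, j, h) ∈ CS ↔ h ≠ 1 ∧ E (i, j, h) ≤ E (j, i, h⁻¹) := by
    intro i j h
    simp only [CS, Finset.mem_filter, Finset.mem_univ, true_and]
  refine ⟨CS, ?_, ?_, ?_⟩
  · rintro ⟨i, j, h⟩ hx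
    exact ((hm i j h).1 hx).1
  · intro i j h h1 h2
    have h3 := ((hm _ _ _).1 h1).2
    have h4 := ((hm _ _ _).1 h2).2
    rw [inv_inv] at h4
    have h5 := E.injective (le_antisymm h3 h4)
    have h6 : i = j := congrArg Prod.fst h5
    have h7 : h = h⁻¹ := congrArg (fun x => x.2.2) h5
    refine ⟨h6, ?_⟩
    rw [← mul_inv_cancel h, ← h7]
  · intro i j h hh
    rcases le_total (E (i, j, h)) (E (j, i, h⁻¹)) with h1 | h1
    · left
      rw [hm]
      exact ⟨hh, h1⟩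
    · right
      rw [hm, inv_inv]
      exact ⟨inv_ne_one.2 hh, h1⟩

theorem two_of_invol {p : ℕ} [Fact p.Prime] {Q : Type} [Group Q] (hQ : IsPGroup p Q) (h : Q) (h1 : h ≠ 1)
    (h2 : h * h = 1) : p = 2 := by
  obtain ⟨k, hk⟩ := hQ h
  have h3 : orderOf h = 2 := orderOf_eq_prime (by rw [pow_two, h2]) h1
  have h4 : 2 ∣ p ^ k := by
    rw [← h3]
    exact orderOf_dvd_of_pow_eq_one hk
  have h5 := Nat.Prime.dvd_of_dvd_pow Nat.prime_two h4
  exact ((Nat.prime_dvd_prime_iff_eq Nat.prime_two Fact.out).1 h5).symm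

/-- The places of the words `e i`. -/
theorem exists_places {n ρ g m : ℕ} (c₀ : Fin n) (h : ρ + m ≤ n * (ρ + g)) :
    ∃ f : Fin m → Fin n × (Fin ρ ⊕ Fin g), Function.Injective f ∧
      ∀ i j, f i ≠ (c₀, Sum.inl j) := by
  classical
  let F : Finset (Fin n × (Fin ρ ⊕ Fin g)) := Finset.univ.image fun j : Fin ρ => (c₀, Sum.inl j)
  have hF : F.card ≤ ρ := Finset.card_image_le.trans (by rw [Finset.card_univ, Fintype.card_fin])
  have hc : Fintype.card (Fin m) ≤ Fintype.card (Fᶜ : Finset (Fin n × (Fin ρ ⊕ Fin g))) := by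
    rw [Fintype.card_coe, Finset.card_compl, Fintype.card_fin, Fintype.card_prod, Fintype.card_sum,
      Fintype.card_fin, Fintype.card_fin, Fintype.card_fin]
    omega
  obtain ⟨f⟩ := Function.Embedding.nonempty_of_card_le hc
  refine ⟨fun i => (f i).1, fun i j hij => f.injective (Subtype.ext hij), fun i j hij => ?_⟩
  have h1 := Finset.mem_compl.1 (f i).2
  exact h1 (Finset.mem_image.2 ⟨j, Finset.mem_univ _, hij.symm⟩)

theorem r2_le_nf {p : ℕ} [Fact p.Prime] {G : Type} [Group G] [Finite G] (hG : IsPGroup p G)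
    {ψ : FreeGroup (Fin (Group.rank G)) →* G} (hψ : Function.Surjective ψ) {ρ m : ℕ}
    {s : Fin ρ → FreeGroup (Fin (Group.rank G))} {e : Fin m → FreeGroup (Fin (Group.rank G))}
    (hnf : NF p ψ ρ m s e) : r2 p (Group.rank G) G ≤ ρ := by
  classical
  have h1 : ProP p ψ (Finset.univ.image s) := by
    refine proP_of_sep hG hψ ?_ ?_
    · intro x hx
      obtain ⟨i, _, rfl⟩ := Finset.mem_image.1 hx
      rw [← hnf.ncl]
      exact subset_normalClosure (Or.inl ⟨i, rfl⟩)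
    · intro l hl h0
      exact hnf.sep hl fun i => h0 _ (Finset.mem_image_of_mem _ (Finset.mem_univ i))
  have h2 : r2 p (Group.rank G) G ≤ (Finset.univ.image s).card := Nat.sInf_le ⟨ψ, _, h1, rfl⟩
  exact h2.trans (Finset.card_image_le.trans (by rw [Finset.card_univ, Fintype.card_fin]))

theorem exists_opt (G : Type) [Group G] [Finite G] : ∃ (ψ : FreeGroup (Fin (Group.rank G)) →* G)
    (T : Finset (FreeGroup (Fin (Group.rank G)))), Disc ψ T ∧ T.card = r1 (Group.rank G) G := by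
  have hne : {r | ∃ (ψ : FreeGroup (Fin (Group.rank G)) →* G)
      (T : Finset (FreeGroup (Fin (Group.rank G)))), Disc ψ T ∧ T.card = r}.Nonempty := by
    obtain ⟨ψ, hψ⟩ := exists_surj G
    obtain ⟨T, hT⟩ := exists_relators ψ hψ
    exact ⟨T.card, ψ, T, ⟨hψ, hT⟩, rfl⟩
  obtain ⟨ψ, T, h1, h2⟩ := Nat.sInf_mem hne
  exact ⟨ψ, T, h1, h2⟩

theorem main (p : ℕ) [Fact p.Prime] {P Q : Type} [Group P] [Finite P] [Group Q] [Finite Q]
    (hP : IsPGroup p P) (hQ : IsPGroup p Q) (g : ℕ)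
    (h : r1 (Group.rank P) P ≤ Nat.card Q * (r2 p (Group.rank P) P + g)) :
    r1 (Group.rank (P ≀ᵣ Q)) (P ≀ᵣ Q) + r2 p (Group.rank Q) Q ≤
      r2 p (Group.rank (P ≀ᵣ Q)) (P ≀ᵣ Q) + r1 (Group.rank Q) Q + g := by
  classical
  have := Fintype.ofFinite Q
  obtain ⟨ψ, TP, hDP, hTP⟩ := exists_opt P
  obtain ⟨φ, TQ, hDQ, hTQ⟩ := exists_opt Q
  obtain ⟨ρ, m, s, e, hρm, hnf⟩ := exists_nf (p := p) hDP.eq
  obtain ⟨ρ', m', s', e', hρm', hnf'⟩ := exists_nf (p := p) hDQ.eq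
  have hr2P := r2_le_nf hP hDP.surj hnf
  have hr2Q := r2_le_nf hQ hDQ.surj hnf'
  have hfrP := frK_of_surj hP hDP.surj
  have hfrQ := frK_of_surj hQ hDQ.surj
  have hfin : ∀ {G : Type} [Group G] [Finite G] {ψ : FreeGroup (Fin (Group.rank G)) →* G}
      {T : Finset (FreeGroup (Fin (Group.rank G)))}, Disc ψ T → Module.Finite (ZMod p) (IL p ψ.ker) := by
    intro G _ _ ψ T hD
    have h1 := hD.eq
    exact IL_findim (fun i : T => (i : FreeGroup (Fin (Group.rank G)))) (by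
      rw [← h1]
      congr 1
      ext x
      simp)
  have hfP := hfin hDP
  have hfQ := hfin hDQ
  obtain ⟨CS, hCS1, hCS2, hCS3⟩ := exists_CS (Group.rank P) Q
  let en : Fin (Nat.card Q) ≃ Q := (Finite.equivFin Q).symm
  obtain ⟨f, hf1, hf2⟩ := exists_places (n := Nat.card Q) (ρ := ρ) (g := g) (m := m) (en.symm 1) (by
    rw [hρm, hTP]
    refine h.trans (Nat.mul_le_mul_left _ ?_)
    omega)
  let hh : Fin (Nat.card Q) → Fin ρ ⊕ Fin g → FreeGroup (Fin (Group.rank P)) := fun c τ =>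
    if hx : ∃ i, f i = (c, τ) then e hx.choose else 1
  let T : Fin TQ.card → FreeGroup (Fin (Group.rank Q)) := fun i => (TQ.equivFin.symm i : FreeGroup (Fin (Group.rank Q)))
  have hT : normalClosure (Set.range T) = φ.ker := by
    rw [← hDQ.eq]
    congr 1
    ext x
    constructor
    · rintro ⟨i, rfl⟩
      exact (TQ.equivFin.symm i).2
    · intro hx
      exact ⟨TQ.equivFin ⟨x, hx⟩, by simp [T]⟩
  let σ : Q → FreeGroup (Fin (Group.rank Q)) := Function.surjInv hDQ.surj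
  have hσ : ∀ q, φ (σ q) = q := Function.surjInv_eq hDQ.surj
  have H : HostW p ψ φ σ en s e hh T CS := by
    refine ⟨hDP.surj, hDQ.surj, hσ, hT, hCS3, hCS1, hnf, ?_, ?_, ?_⟩
    · intro c τ
      by_cases hx : ∃ i, f i = (c, τ)
      · exact Or.inr ⟨hx.choose, dif_pos hx⟩
      · exact Or.inl (dif_neg hx)
    · intro c i hc
      refine dif_neg ?_
      rintro ⟨l, hl⟩
      refine hf2 l i ?_
      rw [hl, ← hc, Equiv.symm_apply_apply]
    · intro i
      refine ⟨(f i).1, (f i).2, ?_⟩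
      have hx : ∃ i', f i' = ((f i).1, (f i).2) := ⟨i, rfl⟩
      have h1 : hh (f i).1 (f i).2 = e hx.choose := dif_pos hx
      have h2 : hx.choose = i := hf1 hx.choose_spec
      rw [h1, h2]
  have hncl := H.ncl_eq hP hQ
  have hW : IsPGroup p (P ≀ᵣ Q) := by
    obtain ⟨k1, hk1⟩ := IsPGroup.iff_card.1 hP
    obtain ⟨k2, hk2⟩ := IsPGroup.iff_card.1 hQ
    refine IsPGroup.of_card (n := k1 * p ^ k2 + k2) ?_
    rw [RegularWreathProduct.card, hk1, hk2, ← pow_mul, ← pow_add]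
  have hF := frK_Ps (φ := φ) hfrP hfrQ
  have hsurj := Ps_surj (ψ := ψ) (φ := φ) hDQ.surj hDP.surj
  have hrank := card_eq_rank hW hsurj hF
  have hDisc : Disc (Ps ψ φ) (Finset.univ.image (relW σ en s hh T CS)) := by
    refine ⟨hsurj, ?_⟩
    rw [Finset.coe_image, Finset.coe_univ, Set.image_univ]
    exact hncl
  obtain ⟨ψ', T', hD', hc'⟩ := disc_congr (Fintype.equivFinOfCardEq hrank) hDisc
  have h1 : r1 (Group.rank (P ≀ᵣ Q)) (P ≀ᵣ Q) ≤ T'.card := Nat.sInf_le ⟨ψ', T', hD', rfl⟩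
  have hne2 : {r | ∃ (φ : FreeGroup (Fin (Group.rank (P ≀ᵣ Q))) →* (P ≀ᵣ Q))
      (S : Finset (FreeGroup (Fin (Group.rank (P ≀ᵣ Q))))), ProP p φ S ∧ S.card = r}.Nonempty :=
    ⟨T'.card, ψ', T', hD'.proP, rfl⟩
  obtain ⟨θ, S, hPro, hS⟩ := Nat.sInf_mem hne2
  have hS' : S.card = r2 p (Group.rank (P ≀ᵣ Q)) (P ≀ᵣ Q) := hS
  have hfinPs : Module.Finite (ZMod p) (IL p (Ps ψ φ).ker) := IL_findim (relW σ en s hh T CS) hncl
  have hfinθ := hPro.findim hW
  have h2 : Module.finrank (ZMod p) (IL p ψ.ker) + (Module.finrank (ZMod p) (IL p φ.ker) + CS.card) ≤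
      Module.finrank (ZMod p) (IL p (Ps ψ φ).ker) :=
    finrank_ge (ψ := ψ) hfrP CS hCS1 hCS2 (fun x h3 h4 => two_of_invol hQ x h3 h4) hσ
  have h3 : Module.finrank (ZMod p) (IL p (Ps ψ φ).ker) ≤ Module.finrank (ZMod p) (IL p θ.ker) :=
    finrank_IL_le hsurj hF hPro.surj
  have h4 := hPro.finrank_le hW
  have h5 : (Finset.univ.image (relW σ en s hh T CS)).card ≤ (ρ + g) + (TQ.card + CS.card) := by
    refine Finset.card_image_le.trans (le_of_eq ?_)
    rw [Finset.card_univ, Fintype.card_sum, Fintype.card_sum, Fintype.card_sum, Fintype.card_fin,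
      Fintype.card_fin, Fintype.card_fin, Fintype.card_coe]
  have h6 := hnf.rank
  have h7 := hnf'.rank
  omega

end Pool.Agent.RG.WR
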