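import Pool.Agent.Lib.MP_1a39b9_al.WR.F

/-!
# WR H: crude bounds of the relation numbers

`r_1(G) ≤ |G| d(G)` and `r_2(G) ≥ d(G)`.
-/

set_option autoImplicit false

namespace Pool.Agent.RG.WR

open Subgroup Pool.Agent.RG.PR

theorem r1_le (G : Type) [Group G] [Finite G] : r1 (Group.rank G) G ≤ Nat.card G * Group.rank G := by
  classical
  obtain ⟨ψ, hψ⟩ := exists_surj G
  have hidx : ψ.ker.index = Nat.card G := by
    rw [Subgroup.index_ker, MonoidHom.range_eq_top.2 hψ, Subgroup.card_top]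
  have h1 : ψ.ker.FiniteIndex := ⟨by
    rw [hidx]
    exact Nat.card_pos.ne'⟩
  obtain ⟨S, hS, hcl⟩ := Group.rank_spec ψ.ker
  have h2 : Group.rank ψ.ker ≤ Nat.card G * Group.rank G := by
    refine (Subgroup.rank_le_index_mul_rank ψ.ker).trans ?_
    rw [hidx]
    refine Nat.mul_le_mul_left _ ?_
    have h3 := Group.rank_le (G := FreeGroup (Fin (Group.rank G))) (S := Finset.univ.image FreeGroup.of) (by
      rw [Finset.coe_image, Finset.coe_univ, Set.image_univ]
      exact FreeGroup.closure_range_of _)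
    exact h3.trans (Finset.card_image_le.trans (by rw [Finset.card_univ, Fintype.card_fin]))
  have h4 : Disc ψ (S.image Subtype.val) := by
    refine ⟨hψ, ?_⟩
    have h5 : closure ((S.image Subtype.val : Finset (FreeGroup (Fin (Group.rank G)))) :
        Set (FreeGroup (Fin (Group.rank G)))) = ψ.ker := by
      rw [Finset.coe_image]
      have h6 := congrArg (Subgroup.map ψ.ker.subtype) hcl
      rw [MonoidHom.map_closure, ← MonoidHom.range_eq_map, Subgroup.range_subtype] at h6
      exact h6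
    rw [← normalClosure_closure_eq_normalClosure, h5]
    exact normalClosure_eq_self _
  have h7 : r1 (Group.rank G) G ≤ (S.image Subtype.val).card := Nat.sInf_le ⟨ψ, _, h4, rfl⟩
  exact h7.trans (Finset.card_image_le.trans (hS.le.trans h2))

theorem ProP.card_ge {p : ℕ} [Fact p.Prime] {d : ℕ} {G : Type} [Group G] [Finite G]
    {φ : FreeGroup (Fin d) →* G} {S : Finset (FreeGroup (Fin d))} (h : ProP p φ S) : d ≤ S.card := by
  classical
  by_contra hcon
  let f : (Fin d → ℤ) →ₗ[ℤ] (S → ℤ) :=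
    { toFun := fun v s => ∑ a, v a * ev (s : FreeGroup (Fin d)) a
      map_add' := by
        intro v w
        funext s
        show ∑ a, (v a + w a) * ev (s : FreeGroup (Fin d)) a =
          ∑ a, v a * ev (s : FreeGroup (Fin d)) a + ∑ a, w a * ev (s : FreeGroup (Fin d)) a
        rw [← Finset.sum_add_distrib]
        exact Finset.sum_congr rfl fun a _ => add_mul _ _ _
      map_smul' := by
        intro c v
        funext s
        show ∑ a, (c * v a) * ev (s : FreeGroup (Fin d)) a = c * ∑ a, v a * ev (s : FreeGroup (Fin d)) a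
        rw [Finset.mul_sum]
        exact Finset.sum_congr rfl fun a _ => mul_assoc _ _ _ }
  have hf : ¬ Function.Injective f := by
    intro hf
    have h1 := card_le_of_injective ℤ f hf
    rw [Fintype.card_fin, Fintype.card_coe] at h1
    exact hcon h1
  rw [injective_iff_map_eq_zero] at hf
  push Not at hf
  obtain ⟨v, hv, hv0⟩ := hf
  obtain ⟨a, ha⟩ := Function.ne_iff.1 hv0
  let L : ∀ n : ℕ, FreeGroup (Fin d) →* Multiplicative (ZMod (p ^ n)) := fun n =>
    MonoidHom.mk' (fun w => Multiplicative.ofAdd (((∑ a, v a * ev w a : ℤ)) : ZMod (p ^ n))) (by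
      intro x y
      have h1 : ∑ a, v a * ev (x * y) a = ∑ a, v a * ev x a + ∑ a, v a * ev y a := by
        rw [← Finset.sum_add_distrib]
        exact Finset.sum_congr rfl fun a _ => by rw [ev_mul, mul_add]
      rw [h1, Int.cast_add]
      rfl)
  have hL : ∀ n w, w ∈ (L n).ker ↔ ((p ^ n : ℕ) : ℤ) ∣ ∑ a, v a * ev w a := by
    intro n w
    rw [← ZMod.intCast_zmod_eq_zero_iff_dvd]
    exact Iff.rfl
  have hK : ∀ n, φ.ker ≤ (L n).ker := by
    intro n
    have : NeZero (p ^ n) := ⟨pow_ne_zero _ (Fact.out : p.Prime).ne_zero⟩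
    refine h.ker_le _ inferInstance ?_ (normalClosure_le_normal ?_)
    · have h1 : (L n).ker.index ∣ p ^ n := by
        rw [Subgroup.index_ker]
        have h2 := Subgroup.card_subgroup_dvd_card (L n).range
        rwa [Nat.card_congr (Multiplicative.toAdd : Multiplicative (ZMod (p ^ n)) ≃ _), Nat.card_zmod] at h2
      obtain ⟨m, _, hm⟩ := (Nat.dvd_prime_pow (Fact.out : p.Prime)).1 h1
      exact ⟨m, hm⟩
    · intro s hs
      rw [SetLike.mem_coe, hL]
      have h1 : ∑ a, v a * ev s a = 0 := congrFun hv ⟨s, hs⟩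
      rw [h1]
      exact dvd_zero _
  have h1 : ∀ n : ℕ, ((p ^ n : ℕ) : ℤ) ∣ Nat.card G * v a := by
    intro n
    have h2 : FreeGroup.of a ^ Nat.card G ∈ φ.ker := by
      rw [MonoidHom.mem_ker, map_pow, pow_card_eq_one']
    have h3 := (hL n _).1 (hK n h2)
    rw [Finset.sum_eq_single a] at h3
    · rw [← zpow_natCast, ev_zpow, ev_of, if_pos rfl, mul_one, mul_comm] at h3
      exact h3
    · intro b _ hb
      rw [← zpow_natCast, ev_zpow, ev_of, if_neg (Ne.symm hb), mul_zero, mul_zero]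
    · intro h
      exact absurd (Finset.mem_univ _) h
  have h2 : (Nat.card G : ℤ) * v a ≠ 0 := mul_ne_zero (by exact_mod_cast Nat.card_pos.ne') ha
  have h3 := Int.le_of_dvd (abs_pos.2 h2) ((dvd_abs _ _).2 (h1 (|(Nat.card G : ℤ) * v a|.toNat)))
  have h4 := Nat.lt_pow_self (Fact.out : p.Prime).one_lt (n := |(Nat.card G : ℤ) * v a|.toNat)
  have h5 : (|(Nat.card G : ℤ) * v a|.toNat : ℤ) = |(Nat.card G : ℤ) * v a| := Int.toNat_of_nonneg (abs_nonneg _)
  have h6 : (|(Nat.card G : ℤ) * v a|.toNat : ℤ) < ((p ^ (|(Nat.card G : ℤ) * v a|.toNat) : ℕ) : ℤ) := by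
    exact_mod_cast h4
  omega

theorem rank_le_r2 {p : ℕ} [Fact p.Prime] (G : Type) [Group G] [Finite G] :
    Group.rank G ≤ r2 p (Group.rank G) G := by
  obtain ⟨ψ, T, h1, _⟩ := exists_opt G
  have hne : {r | ∃ (φ : FreeGroup (Fin (Group.rank G)) →* G)
      (S : Finset (FreeGroup (Fin (Group.rank G)))), ProP p φ S ∧ S.card = r}.Nonempty :=
    ⟨T.card, ψ, T, h1.proP, rfl⟩
  obtain ⟨φ, S, h2, h3⟩ := Nat.sInf_mem hne
  have h4 : S.card = r2 p (Group.rank G) G := h3
  rw [← h4]
  exact ProP.card_ge h2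

theorem r2_le_r1 {p : ℕ} (G : Type) [Group G] [Finite G] : r2 p (Group.rank G) G ≤ r1 (Group.rank G) G := by
  obtain ⟨ψ, T, h1, h2⟩ := exists_opt G
  rw [← h2]
  exact Nat.sInf_le ⟨ψ, T, h1.proP, rfl⟩

theorem exists_cyclic {n : ℕ} (hn : n ≤ 1) {G : Type} [Group G] [Finite G] (ψ : FreeGroup (Fin n) →* G) :
    ∃ T : Finset (FreeGroup (Fin n)), T.card ≤ n ∧ normalClosure (T : Set (FreeGroup (Fin n))) = ψ.ker := by
  classical
  rcases Nat.le_one_iff_eq_zero_or_eq_one.1 hn with rfl | rfl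
  · refine ⟨∅, le_of_eq Finset.card_empty, ?_⟩
    have h : ∀ w : FreeGroup (Fin 0), w = 1 := fun w => Subsingleton.elim _ _
    ext w
    rw [h w]
    exact ⟨fun _ => one_mem _, fun _ => one_mem _⟩
  · let x : FreeGroup (Fin 1) := FreeGroup.of 0
    have hx : ∀ w : FreeGroup (Fin 1), ∃ k : ℤ, x ^ k = w := by
      intro w
      have h1 : w ∈ closure (Set.range (FreeGroup.of : Fin 1 → FreeGroup (Fin 1))) := by
        rw [FreeGroup.closure_range_of]
        exact mem_top w
      have h2 : Set.range (FreeGroup.of : Fin 1 → FreeGroup (Fin 1)) = {x} := by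
        ext y
        constructor
        · rintro ⟨i, rfl⟩
          rw [Subsingleton.elim i 0]
          rfl
        · intro hy
          exact ⟨0, (Set.mem_singleton_iff.1 hy).symm⟩
      rw [h2] at h1
      exact mem_closure_singleton.1 h1
    refine ⟨{x ^ orderOf (ψ x)}, le_of_eq (Finset.card_singleton _), ?_⟩
    rw [Finset.coe_singleton]
    apply le_antisymm
    · refine normalClosure_le_normal ?_
      rintro _ rfl
      rw [SetLike.mem_coe, MonoidHom.mem_ker, map_pow, pow_orderOf_eq_one]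
    · intro w hw
      obtain ⟨k, rfl⟩ := hx w
      rw [MonoidHom.mem_ker, map_zpow] at hw
      obtain ⟨l, rfl⟩ := orderOf_dvd_iff_zpow_eq_one.2 hw
      rw [zpow_mul, zpow_natCast]
      have h3 : x ^ orderOf (ψ x) ∈ normalClosure ({x ^ orderOf (ψ x)} : Set (FreeGroup (Fin 1))) :=
        subset_normalClosure (Set.mem_singleton _)
      exact zpow_mem h3 l

theorem r1_cyclic (Q : Type) [Group Q] [Finite Q] [IsCyclic Q] : r1 (Group.rank Q) Q ≤ Group.rank Q := by
  classical
  have hrank : Group.rank Q ≤ 1 := by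
    obtain ⟨g, hg⟩ := IsCyclic.exists_generator (α := Q)
    refine (Group.rank_le (S := {g}) ?_).trans (le_of_eq (Finset.card_singleton g))
    rw [Finset.coe_singleton, eq_top_iff]
    intro y _
    exact mem_closure_singleton.2 (hg y)
  obtain ⟨ψ, hψ⟩ := exists_surj Q
  obtain ⟨T, h1, h2⟩ := exists_cyclic hrank ψ
  have h3 : r1 (Group.rank Q) Q ≤ T.card := Nat.sInf_le ⟨ψ, T, ⟨hψ, h2⟩, rfl⟩
  exact h3.trans h1

/-- The hypothesis of the main theorem holds if `|P| ≤ |Q|`. -/
theorem hyp_of_card {p : ℕ} [Fact p.Prime] {P Q : Type} [Group P] [Finite P] [Group Q] [Finite Q]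
    (h : Nat.card P ≤ Nat.card Q) :
    r1 (Group.rank P) P ≤ Nat.card Q * (r2 p (Group.rank P) P + 0) :=
  (r1_le P).trans (Nat.mul_le_mul h (rank_le_r2 P))

end Pool.Agent.RG.WR
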